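import Pool.Agent.W732.Cor.Stm

/-!
Slice localisation: transfer from the half plane to the disc.
-/

set_option autoImplicit false

open MeasureTheory Metric Set Filter Topology Complex
open scoped ContDiff

namespace Pool.Agent.W177.Cor

open Pool.Agent.H720R2.HP Pool.Agent.H788R3.Cor2 Pool.Agent.W732.Cor

/-- the Cayley transform -/
noncomputable def cay (w : ℂ) : ℂ := (w - I) / (w + I)

/-- the inverse map -/
noncomputable def ya (t : ℂ) : ℂ := I * (1 + t) / (1 - t)

theorem add_I_ne {w : ℂ} (hw : 0 < w.im) : w + I ≠ 0 := by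
  intro h
  have := congrArg Complex.im h
  simp at this
  linarith

theorem conj_sub_I (w : ℂ) : starRingEnd ℂ w - I = starRingEnd ℂ (w + I) := by
  rw [map_add, conj_I]
  ring

theorem conj_sub_I_ne {w : ℂ} (hw : 0 < w.im) : starRingEnd ℂ w - I ≠ 0 := by
  rw [conj_sub_I]
  intro h
  exact add_I_ne hw ((map_eq_zero _).1 h)

theorem one_sub_cay {w : ℂ} (hw : 0 < w.im) :
    1 - ‖cay w‖ ^ 2 = 4 * w.im / ‖w + I‖ ^ 2 := by
  have h1 := add_I_ne hw
  have h2 : ‖w + I‖ ^ 2 ≠ 0 := by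
    have := norm_pos_iff.2 h1
    positivity
  unfold cay
  rw [norm_div, div_pow, eq_div_iff h2, sub_mul, div_mul_cancel₀ _ h2,
    ← Complex.normSq_eq_norm_sq, ← Complex.normSq_eq_norm_sq, normSq_apply, normSq_apply]
  simp
  ring

theorem cay_mem {w : ℂ} (hw : 0 < w.im) : cay w ∈ ball (0 : ℂ) 1 := by
  rw [mem_ball_zero_iff]
  have h1 := one_sub_cay hw
  have h2 : 0 < 4 * w.im / ‖w + I‖ ^ 2 := by
    have := norm_pos_iff.2 (add_I_ne hw)
    positivity
  nlinarith [norm_nonneg (cay w)]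

theorem one_sub_conj {ζ w : ℂ} (hζ : 0 < ζ.im) (hw : 0 < w.im) :
    1 - starRingEnd ℂ (cay ζ) * cay w =
      2 * I * (starRingEnd ℂ ζ - w) / ((starRingEnd ℂ ζ - I) * (w + I)) := by
  have h1 := add_I_ne hw
  have h2 := conj_sub_I_ne hζ
  unfold cay
  rw [map_div₀, map_sub, map_add, conj_I, sub_neg_eq_add, ← sub_eq_add_neg]
  field_simp
  ring

theorem cay_sub {a w : ℂ} (ha : 0 < a.im) (hw : 0 < w.im) :
    cay w - cay a = 2 * I * (w - a) / ((w + I) * (a + I)) := by
  have h1 := add_I_ne hw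
  have h2 := add_I_ne ha
  unfold cay
  field_simp
  ring

theorem sub_conj_ne {ζ w : ℂ} (hζ : 0 < ζ.im) (hw : 0 < w.im) : w - starRingEnd ℂ ζ ≠ 0 := by
  intro h
  have := congrArg Complex.im h
  simp at this
  linarith

theorem dd_cay {ζ w : ℂ} (hζ : 0 < ζ.im) (hw : 0 < w.im) : dd (cay ζ) (cay w) = dk ζ w := by
  have h1 : 0 < ‖ζ + I‖ := norm_pos_iff.2 (add_I_ne hζ)
  have h2 : 0 < ‖w + I‖ := norm_pos_iff.2 (add_I_ne hw)
  have h3 : 0 < ‖w - starRingEnd ℂ ζ‖ := norm_pos_iff.2 (sub_conj_ne hζ hw)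
  have h4 : ‖starRingEnd ℂ ζ - I‖ = ‖ζ + I‖ := by
    rw [conj_sub_I, Complex.norm_conj]
  have h5 : ‖1 - starRingEnd ℂ (cay ζ) * cay w‖ =
      2 * ‖w - starRingEnd ℂ ζ‖ / (‖ζ + I‖ * ‖w + I‖) := by
    rw [one_sub_conj hζ hw, norm_div, norm_mul, norm_mul, norm_mul, h4, norm_I,
      norm_sub_rev (starRingEnd ℂ ζ) w]
    norm_num
  have h6 : √((1 - ‖cay ζ‖ ^ 2) * (1 - ‖cay w‖ ^ 2)) =
      4 * √(ζ.im * w.im) / (‖ζ + I‖ * ‖w + I‖) := by
    rw [one_sub_cay hζ, one_sub_cay hw]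
    have h7 : 4 * ζ.im / ‖ζ + I‖ ^ 2 * (4 * w.im / ‖w + I‖ ^ 2) =
        (4 / (‖ζ + I‖ * ‖w + I‖)) ^ 2 * (ζ.im * w.im) := by
      field_simp
    rw [h7, Real.sqrt_mul (sq_nonneg _), Real.sqrt_sq (by positivity)]
    ring
  unfold dd dk
  rw [h5, h6]
  field_simp
  ring

theorem blaschke_cay {a w : ℂ} (ha : 0 < a.im) (hw : 0 < w.im) :
    (cay w - cay a) / (1 - starRingEnd ℂ (cay a) * cay w) =
      (w - a) / (w - starRingEnd ℂ a) * (-(starRingEnd ℂ a - I) / (a + I)) := by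
  have h1 := add_I_ne hw
  have h2 := add_I_ne ha
  have h3 := conj_sub_I_ne ha
  have h4 := sub_conj_ne ha hw
  have h5 : starRingEnd ℂ a - w ≠ 0 := by
    intro h
    apply h4
    rw [← neg_sub, h, neg_zero]
  have h6 : w - starRingEnd ℂ a = -(starRingEnd ℂ a - w) := by ring
  rw [cay_sub ha hw, one_sub_conj ha hw, h6]
  have := I_ne_zero
  field_simp

theorem cay_diff {w : ℂ} (hw : 0 < w.im) : DifferentiableAt ℂ cay w := by
  unfold cay
  refine DifferentiableAt.fun_div ?_ ?_ (add_I_ne hw)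
  · fun_prop
  · fun_prop

theorem one_sub_ne' {t : ℂ} (ht : ‖t‖ < 1) : 1 - t ≠ 0 := by
  intro h
  have h1 : t = 1 := (sub_eq_zero.1 h).symm
  rw [h1, norm_one] at ht
  exact lt_irrefl _ ht

theorem ya_im {t : ℂ} (ht : ‖t‖ < 1) : 0 < (ya t).im := by
  have h2 : 1 - t ≠ 0 := one_sub_ne' ht
  have h4 : 0 < normSq (1 - t) := normSq_pos.2 h2
  have h5 : (ya t).im = (1 - ‖t‖ ^ 2) / normSq (1 - t) := by
    rw [← Complex.normSq_eq_norm_sq, normSq_apply t]
    unfold ya
    rw [Complex.div_im]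
    simp
    ring
  rw [h5]
  apply div_pos _ h4
  nlinarith [norm_nonneg t]

theorem cay_ya {t : ℂ} (ht : ‖t‖ < 1) : cay (ya t) = t := by
  have h2 := one_sub_ne' ht
  have h3 : ya t + I = 2 * I / (1 - t) := by
    unfold ya
    rw [eq_div_iff h2, add_mul, div_mul_cancel₀ _ h2]
    ring
  have h4 : ya t - I = 2 * I * t / (1 - t) := by
    unfold ya
    rw [eq_div_iff h2, sub_mul, div_mul_cancel₀ _ h2]
    ring
  unfold cay
  rw [h3, h4]
  have := I_ne_zero
  rw [div_div_div_cancel_right₀ h2]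
  field_simp

theorem ya_diff {t : ℂ} (ht : ‖t‖ < 1) : DifferentiableAt ℂ ya t := by
  have h2 := one_sub_ne' ht
  unfold ya
  refine DifferentiableAt.fun_div ?_ ?_ h2
  · fun_prop
  · fun_prop

section

variable {E : Type} [NormedAddCommGroup E] [NormedSpace ℂ E]

/-- the domain over the half plane -/
def DP (D : Set (ℂ × E)) : Set (ℂ × E) := {p | 0 < p.1.im ∧ (cay p.1, p.2) ∈ D}

theorem mapc_diff {p : ℂ × E} (hp : 0 < p.1.im) :
    DifferentiableAt ℂ (fun p : ℂ × E => (cay p.1, p.2)) p := by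
  refine DifferentiableAt.prodMk ?_ differentiableAt_snd
  exact (cay_diff hp).comp p differentiableAt_fst

theorem mapy_diff {p : ℂ × E} (hp : ‖p.1‖ < 1) :
    DifferentiableAt ℂ (fun p : ℂ × E => (ya p.1, p.2)) p := by
  refine DifferentiableAt.prodMk ?_ differentiableAt_snd
  exact (ya_diff hp).comp p differentiableAt_fst

theorem DP_open {D : Set (ℂ × E)} (hD : IsOpen D) : IsOpen (DP D) := by
  have h1 : IsOpen {p : ℂ × E | 0 < p.1.im} :=
    isOpen_lt continuous_const (Complex.continuous_im.comp continuous_fst)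
  have h2 : ContinuousOn (fun p : ℂ × E => (cay p.1, p.2)) {p : ℂ × E | 0 < p.1.im} :=
    fun p hp => (mapc_diff hp).continuousAt.continuousWithinAt
  exact h2.isOpen_inter_preimage h1 hD

theorem tube [FiniteDimensional ℂ E] {D : Set (ℂ × E)} {Λ : ℂ → ℂ × E → E} (h : TubeD D Λ) :
    Tube (DP D) (fun ζ p => Λ (cay ζ) (cay p.1, p.2)) where
  retr :=
    { op := DP_open h.retr.op
      im := fun p hp => hp.1
      mem := fun ζ hζ p hp => ⟨hζ, h.retr.mem _ (cay_mem hζ) _ hp.2⟩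
      self := fun ζ y hy => h.retr.self _ _ hy.2
      diff := fun ζ hζ p hp => by
        have h1 := h.retr.diff _ (cay_mem hζ) _ hp.2
        exact DifferentiableAt.comp p h1 (mapc_diff hp.1)
      cont := fun y => by
        have h1 := h.retr.cont y
        have h2 : ContinuousOn (fun q : ℂ × ℂ => (cay q.1, cay q.2))
            {q : ℂ × ℂ | 0 < q.1.im ∧ (q.2, y) ∈ DP D} := by
          intro q hq
          have h3 : 0 < q.2.im := hq.2.1
          have h4 : ContinuousAt (fun q : ℂ × ℂ => cay q.1) q :=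
            ContinuousAt.comp (f := Prod.fst) (g := cay) (cay_diff hq.1).continuousAt
              continuousAt_fst
          have h5 : ContinuousAt (fun q : ℂ × ℂ => cay q.2) q :=
            ContinuousAt.comp (f := Prod.snd) (g := cay) (cay_diff h3).continuousAt
              continuousAt_snd
          exact (ContinuousAt.prodMk h4 h5).continuousWithinAt
        exact h1.comp h2 (fun q hq => ⟨cay_mem hq.1, hq.2.2⟩) }
  zero := fun w hw => ⟨hw, h.zero _ (cay_mem hw)⟩
  dec := fun ζ hζ p hp c hc => by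
    refine ⟨hζ, h.dec _ (cay_mem hζ) _ hp.2 c ?_⟩
    rw [dd_cay hζ hp.1]
    exact hc

end

theorem main : S_asm → S_disc := by
  intro hasm N C
  obtain ⟨C', hC'⟩ := hasm N C
  refine ⟨C', ?_⟩
  intro E _ _ _ D Λ hT F hF hFb hloc
  have hFd : ∀ f : ℂ × E → ℂ, DifferentiableOn ℂ f D →
      DifferentiableOn ℂ (fun p : ℂ × E => f (cay p.1, p.2)) (DP D) := by
    intro f hf p hp
    have h1 : DifferentiableAt ℂ f (cay p.1, p.2) := (hf _ hp.2).differentiableAt
      (hT.retr.op.mem_nhds hp.2)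
    exact (DifferentiableAt.comp p h1 (mapc_diff hp.1)).differentiableWithinAt
  obtain ⟨h, hh1, hh2, hh3⟩ := hC' E (DP D) _ (tube hT) (fun i p => F i (cay p.1, p.2))
    (fun i => hFd _ (hF i)) (fun i p hp => hFb i _ hp.2) (by
      intro a ha
      obtain ⟨g, g₀, hg, hg₀, hgb, hg₀b, hsum⟩ := hloc (cay a) (cay_mem ha)
      refine ⟨fun i p => g i (cay p.1, p.2),
        fun p => -(starRingEnd ℂ a - I) / (a + I) * g₀ (cay p.1, p.2), fun i => hFd _ (hg i),
        (hFd _ hg₀).const_mul _, fun i p hp => hgb i _ hp.2, ?_, ?_⟩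
      · intro p hp
        have h1 : ‖-(starRingEnd ℂ a - I) / (a + I)‖ = 1 := by
          rw [norm_div, norm_neg, conj_sub_I, Complex.norm_conj]
          exact div_self (norm_pos_iff.2 (add_I_ne ha)).ne'
        change ‖-(starRingEnd ℂ a - I) / (a + I) * g₀ (cay p.1, p.2)‖ ≤ C
        rw [norm_mul, h1, one_mul]
        exact hg₀b _ hp.2
      · intro p hp
        have h1 := hsum _ hp.2
        rw [← h1]
        congr 1
        change _ = (cay p.1 - cay a) / (1 - starRingEnd ℂ (cay a) * cay p.1) * _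
        rw [blaschke_cay ha hp.1, mul_assoc])
  have hm : ∀ p ∈ D, (ya p.1, p.2) ∈ DP D := by
    intro p hp
    have h1 : ‖p.1‖ < 1 := mem_ball_zero_iff.1 (hT.retr.sub p hp)
    refine ⟨ya_im h1, ?_⟩
    change (cay (ya p.1), p.2) ∈ D
    rw [cay_ya h1]
    exact hp
  refine ⟨fun i p => h i (ya p.1, p.2), ?_, ?_, ?_⟩
  · intro i p hp
    have h1 : ‖p.1‖ < 1 := mem_ball_zero_iff.1 (hT.retr.sub p hp)
    have h2 : DifferentiableAt ℂ (h i) (ya p.1, p.2) := (hh1 i _ (hm p hp)).differentiableAt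
      ((DP_open hT.retr.op).mem_nhds (hm p hp))
    exact (DifferentiableAt.comp p h2 (mapy_diff h1)).differentiableWithinAt
  · intro i p hp
    exact hh2 i _ (hm p hp)
  · intro p hp
    have h1 : ‖p.1‖ < 1 := mem_ball_zero_iff.1 (hT.retr.sub p hp)
    have h2 := hh3 _ (hm p hp)
    simp only [cay_ya h1] at h2
    exact h2

end Pool.Agent.W177.Cor
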